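import Pool.Agent.Work.MP_7250c3_gt.Example

set_option autoImplicit false

namespace Pool.Agent.Results.MP_7250c3_gt.AlmostAltMinimal

open Pool.Agent.Work.MP_7250c3_gt Classical

/-- The number of crossings is the sum of the numbers of crossings between pairs of components. -/
theorem crossings_eq (G : GaussDiagram) (κ : Fin 4 ≃ G.K) :
    G.crossings = ∑ i : Fin 4, ∑ j : Fin 4, ov G (κ i) (κ j) := by
  have := G.finP
  have := Fintype.ofFinite G.P
  have h1 : G.crossings = (Finset.univ.filter (fun p : G.P => G.isOver p = true)).card := by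
    unfold GaussDiagram.crossings
    rw [Nat.card_eq_fintype_card, Fintype.card_subtype]
  have h2 : ∀ i j, ov G i j = (Finset.univ.filter (fun p : G.P => G.isOver p = true ∧
      G.comp p = i ∧ G.comp (G.partner p) = j)).card := by
    intro i j
    unfold ov
    rw [← Set.ncard_coe_finset]
    congr 1
    ext p
    simp
  rw [h1, Finset.card_eq_sum_card_fiberwise (t := (Finset.univ : Finset (Fin 4 × Fin 4)))
    (f := fun p => (κ.symm (G.comp p), κ.symm (G.comp (G.partner p)))) (fun _ _ => by simp),
    ← Finset.univ_product_univ, Finset.sum_product]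
  refine Finset.sum_congr rfl (fun i _ => Finset.sum_congr rfl (fun j _ => ?_))
  rw [h2, Finset.filter_filter]
  congr 1
  ext p
  simp only [Finset.mem_filter, Finset.mem_univ, true_and, Prod.mk.injEq,
    Equiv.symm_apply_eq]

theorem colT_comp {G G' : GaussDiagram} (κ : G.K ≃ G'.K) (k j : G.K) (A B : Set (ZMod 16)) :
    (fun i => colT G' (κ k) (κ j) A B (κ i)) = colT G k j A B := by
  funext i
  unfold colT
  by_cases h : i = k
  · subst h; simp
  · have h' : κ i ≠ κ k := fun e => h (κ.injective e)
    rw [if_neg h, if_neg h']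
    by_cases g : i = j
    · subst g; simp
    · have g' : κ i ≠ κ j := fun e => g (κ.injective e)
      rw [if_neg g, if_neg g']

theorem col_transfer {G G' : GaussDiagram} (κ : G.K ≃ G'.K)
    (hcol : ∀ (Q : Type) (op : Q → Q → Q), IsKei op → ∀ t : G'.K → Set Q,
      (∀ k k' x y, x ∈ t k → y ∈ t k' → op x y ∈ t k) → (∀ k, (t k).Nonempty) →
      ((∃ c, IsCol G op (fun k => t (κ k)) c) ↔ ∃ c, IsCol G' op t c))
    (l : Fin 3 → Fin 3 → ZMod 16) (hl : IsKei (lamOp l)) (k j : G.K) (A B : Set (ZMod 16))
    (hA : A.Nonempty) (hB : B.Nonempty)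
    (h11 : ∀ x ∈ A, ∀ y ∈ A, l 1 1 * y - x ∈ A) (h12 : ∀ x ∈ A, ∀ y ∈ B, l 1 2 * y - x ∈ A)
    (h21 : ∀ x ∈ B, ∀ y ∈ A, l 2 1 * y - x ∈ B) (h22 : ∀ x ∈ B, ∀ y ∈ B, l 2 2 * y - x ∈ B) :
    (∃ c, IsCol G (lamOp l) (colT G k j A B) c) ↔
      ∃ c, IsCol G' (lamOp l) (colT G' (κ k) (κ j) A B) c := by
  have h := hcol _ (lamOp l) hl (colT G' (κ k) (κ j) A B) ?_ ?_
  · rw [colT_comp] at h
    exact h
  · intro u v x y hx hy
    unfold colT at hx hy ⊢
    by_cases hu : u = κ k
    · rw [if_pos hu] at hx ⊢
      by_cases hv : v = κ k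
      · rw [if_pos hv] at hy
        refine ⟨?_, ?_⟩ <;> simp only [lamOp, hx.1, hy.1]
        · simp
        · simpa using h11 _ hx.2 _ hy.2
      · rw [if_neg hv] at hy
        by_cases hv' : v = κ j
        · rw [if_pos hv'] at hy
          refine ⟨?_, ?_⟩ <;> simp only [lamOp, hx.1, hy.1]
          · simp
          · simpa using h12 _ hx.2 _ hy.2
        · rw [if_neg hv'] at hy
          rw [Set.mem_singleton_iff] at hy
          rw [hy]
          simpa [lamOp] using hx
    · rw [if_neg hu] at hx ⊢
      by_cases hu' : u = κ j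
      · rw [if_pos hu'] at hx ⊢
        by_cases hv : v = κ k
        · rw [if_pos hv] at hy
          refine ⟨?_, ?_⟩ <;> simp only [lamOp, hx.1, hy.1]
          · simp
          · simpa using h21 _ hx.2 _ hy.2
        · rw [if_neg hv] at hy
          by_cases hv' : v = κ j
          · rw [if_pos hv'] at hy
            refine ⟨?_, ?_⟩ <;> simp only [lamOp, hx.1, hy.1]
            · simp
            · simpa using h22 _ hx.2 _ hy.2
          · rw [if_neg hv'] at hy
            rw [Set.mem_singleton_iff] at hy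
            rw [hy]
            simpa [lamOp] using hx
      · rw [if_neg hu'] at hx ⊢
        rw [Set.mem_singleton_iff] at hx
        rw [hx]
        simp [lamOp]
  · intro u
    unfold colT
    split_ifs
    · obtain ⟨a, ha⟩ := hA; exact ⟨(1, a), rfl, ha⟩
    · obtain ⟨b, hb⟩ := hB; exact ⟨(2, b), rfl, hb⟩
    · exact ⟨_, rfl⟩

theorem lowerG (G : GaussDiagram) (h : Same exG G) : 13 ≤ G.crossings := by
  obtain ⟨κ, hov, hcol⟩ := h
  have ova : ∀ i j : Fin 4, ov exG i j =
    (Finset.univ.filter (fun p : Fin 26 => overT p = true ∧ compT p = i ∧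
      compT (partnerT p) = j)).card := ov_exG
  have v01 : ov exG (0 : Fin 4) (1 : Fin 4) = 2 := by rw [ova]; decide
  have v10 : ov exG (1 : Fin 4) (0 : Fin 4) = 2 := by rw [ova]; decide
  have v02 : ov exG (0 : Fin 4) (2 : Fin 4) = 1 := by rw [ova]; decide
  have v20 : ov exG (2 : Fin 4) (0 : Fin 4) = 1 := by rw [ova]; decide
  have v03 : ov exG (0 : Fin 4) (3 : Fin 4) = 1 := by rw [ova]; decide
  have v30 : ov exG (3 : Fin 4) (0 : Fin 4) = 1 := by rw [ova]; decide
  have v12 : ov exG (1 : Fin 4) (2 : Fin 4) = 1 := by rw [ova]; decide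
  have v21 : ov exG (2 : Fin 4) (1 : Fin 4) = 1 := by rw [ova]; decide
  have v13 : ov exG (1 : Fin 4) (3 : Fin 4) = 1 := by rw [ova]; decide
  have v31 : ov exG (3 : Fin 4) (1 : Fin 4) = 1 := by rw [ova]; decide
  let κ' : Fin 4 ≃ G.K := κ
  have par : ∀ i j : Fin 4, i ≠ j → ov exG i j % 2 = ov G (κ' i) (κ' j) % 2 := hov
  have w01 := par 0 1 (by decide)
  have w10 := par 1 0 (by decide)
  have w02 := par 0 2 (by decide)
  have w20 := par 2 0 (by decide)
  have w03 := par 0 3 (by decide)
  have w30 := par 3 0 (by decide)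
  have w12 := par 1 2 (by decide)
  have w21 := par 2 1 (by decide)
  have w13 := par 1 3 (by decide)
  have w31 := par 3 1 (by decide)
  rw [v01] at w01
  rw [v10] at w10
  rw [v02] at w02
  rw [v20] at w20
  rw [v03] at w03
  rw [v30] at w30
  rw [v12] at w12
  rw [v21] at w21
  rw [v13] at w13
  rw [v31] at w31
  have hne : κ' 0 ≠ κ' 1 := fun e => absurd (κ'.injective e) (by decide)
  have d1 : ∀ x ∈ S 4 0, ∀ y ∈ S 4 0, (2 : ZMod 16) * y - x ∈ S 4 0 := by
    intro x hx y hy
    have hx : 4 * x = 0 := hx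
    have hy : 4 * y = 0 := hy
    show 4 * (2 * y - x) = 0
    linear_combination 2 * hy - hx
  have d2 : ∀ x ∈ S 4 0, ∀ y ∈ S 4 8, (2 : ZMod 16) * y - x ∈ S 4 0 := by
    intro x hx y hy
    have hx : 4 * x = 0 := hx
    have hy : 4 * y = 8 := hy
    show 4 * (2 * y - x) = 0
    have e : (16 : ZMod 16) = 0 := by decide
    linear_combination 2 * hy - hx + e
  have d3 : ∀ x ∈ S 4 8, ∀ y ∈ S 4 0, (2 : ZMod 16) * y - x ∈ S 4 8 := by
    intro x hx y hy
    have hx : 4 * x = 8 := hx
    have hy : 4 * y = 0 := hy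
    show 4 * (2 * y - x) = 8
    have e : (16 : ZMod 16) = 0 := by decide
    linear_combination 2 * hy - hx - e
  have d4 : ∀ x ∈ S 4 8, ∀ y ∈ S 4 8, (2 : ZMod 16) * y - x ∈ S 4 8 := by
    intro x hx y hy
    have hx : 4 * x = 8 := hx
    have hy : 4 * y = 8 := hy
    show 4 * (2 * y - x) = 8
    linear_combination 2 * hy - hx
  have e16 : (16 : ZMod 16) = 0 := by decide
  have h5 := lower_two (G := G) hne (by omega) (by omega) (by
      have := (col_transfer (G := exG) (G' := G) κ hcol la la_kei (0 : Fin 4) (1 : Fin 4) (S 4 0) (S 4 8)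
        ⟨0, by show (4 : ZMod 16) * 0 = 0; decide⟩ ⟨2, by show (4 : ZMod 16) * 2 = 8; decide⟩
        d1 d2 d3 d4).mp ex_colA
      exact this)
    (by
      intro hc
      refine ex_noB ((col_transfer (G := exG) (G' := G) κ hcol lb lb_kei (0 : Fin 4) (1 : Fin 4) (S 8 0)
        (S 4 8) ⟨0, by show (8 : ZMod 16) * 0 = 0; decide⟩ ⟨2, by show (4 : ZMod 16) * 2 = 8; decide⟩
        ?_ ?_ ?_ ?_).mpr hc)
      · intro x hx y hy
        have hx : 8 * x = 0 := hx
        have hy : 8 * y = 0 := hy
        show 8 * (2 * y - x) = 0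
        linear_combination 2 * hy - hx
      · intro x hx y hy
        have hx : 8 * x = 0 := hx
        have hy : 4 * y = 8 := hy
        show 8 * (1 * y - x) = 0
        linear_combination 2 * hy - hx + e16
      · intro x hx y hy
        have hx : 4 * x = 8 := hx
        have hy : 8 * y = 0 := hy
        show 4 * (4 * y - x) = 8
        linear_combination 2 * hy - hx - e16
      · intro x hx y hy
        have hx : 4 * x = 8 := hx
        have hy : 4 * y = 8 := hy
        show 4 * (2 * y - x) = 8
        linear_combination 2 * hy - hx)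
    (by
      intro hc
      refine ex_noC ((col_transfer (G := exG) (G' := G) κ hcol lb lb_kei (1 : Fin 4) (0 : Fin 4) (S 8 8)
        (S 4 0) ⟨1, by show (8 : ZMod 16) * 1 = 8; decide⟩ ⟨0, by show (4 : ZMod 16) * 0 = 0; decide⟩
        ?_ ?_ ?_ ?_).mpr hc)
      · intro x hx y hy
        have hx : 8 * x = 8 := hx
        have hy : 8 * y = 8 := hy
        show 8 * (2 * y - x) = 8
        linear_combination 2 * hy - hx
      · intro x hx y hy
        have hx : 8 * x = 8 := hx
        have hy : 4 * y = 0 := hy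
        show 8 * (1 * y - x) = 8
        linear_combination 2 * hy - hx - e16
      · intro x hx y hy
        have hx : 4 * x = 0 := hx
        have hy : 8 * y = 8 := hy
        show 4 * (4 * y - x) = 0
        linear_combination 2 * hy - hx + e16
      · intro x hx y hy
        have hx : 4 * x = 0 := hx
        have hy : 4 * y = 0 := hy
        show 4 * (2 * y - x) = 0
        linear_combination 2 * hy - hx)
  rw [crossings_eq G κ']
  simp only [Fin.sum_univ_four]
  omega

/-- Every diagram of the link represented by `exD` has at least 13 crossings. -/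
theorem lower (E : LinkDiagram) (h : SameLink exD E) : 13 ≤ E.toGauss.crossings :=
  lowerG E.toGauss h.same

/-- **Theorem.** There is a link diagram on the sphere that is almost alternating and has as many
crossings as the crossing number of the link it represents (namely 13). -/
theorem result : ∃ D : LinkDiagram, D.toGauss.IsAlmostAlternating ∧
    D.toGauss.crossings = crossingNumber D ∧ crossingNumber D = 13 := by
  have hle : 13 ≤ crossingNumber exD := by
    have hne : {n | ∃ E : LinkDiagram, SameLink exD E ∧ E.toGauss.crossings = n}.Nonempty :=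
      ⟨_, exD, Relation.EqvGen.refl _, rfl⟩
    obtain ⟨E, hE, hn⟩ := Nat.sInf_mem hne
    unfold crossingNumber
    rw [← hn]
    exact lower E hE
  have hge : crossingNumber exD ≤ 13 :=
    Nat.sInf_le ⟨exD, Relation.EqvGen.refl _, card_crossings⟩
  have heq : crossingNumber exD = 13 := le_antisymm hge hle
  exact ⟨exD, exG_almost, card_crossings.trans heq.symm, heq⟩

end Pool.Agent.Results.MP_7250c3_gt.AlmostAltMinimal
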